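import Mathlib

/-!
# E4-6: the numerical contradiction
-/

set_option autoImplicit false

namespace E4

lemma nu_final : (4 * (10 ^ 10 + 1) * 30 ^ 60 : ℝ) < (0.003 * (225 / 28) ^ 60) ^ 2 := by
  norm_num

lemma nu_rec (E : ℕ → ℝ) (A : ℕ → ℝ) (μ L : ℝ) (hμ : 0 < μ) (hL : L ≤ μ / 4000)
    (hE : ∀ j < 60, 15 / 56 * E (j + 1) ≤ E j + 1 / 4 * A j)
    (hA : ∀ j < 60, A j ≤ 2 * (27 * ((30 ^ (j + 1) - 1) / 29) * μ + L))
    (h60 : 0.003 ≤ E 60 / (2 * 30 ^ 60 * μ) - 196 / 197) :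
    ∀ i ≤ 60, 0.003 * (225 / 28) ^ i ≤ E (60 - i) / (2 * 30 ^ (60 - i) * μ) - 196 / 197 := by
  intro i
  induction i with
  | zero =>
    intro _
    simpa using h60
  | succ i ih =>
    intro hi
    have h1 := ih (by omega)
    obtain ⟨j, hj⟩ : ∃ j, 60 - i = j + 1 := ⟨60 - i - 1, by omega⟩
    have hj' : 60 - (i + 1) = j := by omega
    rw [hj] at h1
    rw [hj']
    have hjlt : j < 60 := by omega
    have h2 := hE j hjlt
    have h3 := hA j hjlt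
    have hp : (0 : ℝ) < 30 ^ j := by positivity
    have hp1 : (1 : ℝ) ≤ 30 ^ j := one_le_pow₀ (by norm_num)
    have h4 : (225 / 28) * (E (j + 1) / (2 * 30 ^ (j + 1) * μ)) ≤ E j / (2 * 30 ^ j * μ) + 7 := by
      rw [pow_succ] at h3 ⊢
      rw [div_add' _ _ _ (by positivity), mul_div_assoc', div_le_div_iff₀ (by positivity)
        (by positivity)]
      have h5 : 15 / 56 * E (j + 1) ≤ E j + 7 * (2 * 30 ^ j * μ) := by
        have h6 : 1 / 4 * A j ≤ 7 * (2 * 30 ^ j * μ) := by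
          have h7 : 1 / 4 * A j ≤ 1 / 2 * (27 * ((30 ^ j * 30 - 1) / 29) * μ + μ / 4000) := by
            linarith
          have h8 : 0 < 30 ^ j * μ := by positivity
          have h9 : (27 : ℝ) * ((30 ^ j * 30 - 1) / 29) * μ = 810 / 29 * (30 ^ j * μ) - 27 / 29 * μ := by
            ring
          rw [h9] at h7
          have h10 : (7 : ℝ) * (2 * 30 ^ j * μ) = 14 * (30 ^ j * μ) := by ring
          rw [h10]
          linarith
        linarith
      have h6 : 225 / 28 * E (j + 1) * (2 * 30 ^ j * μ) = 30 * (15 / 56 * E (j + 1)) * (2 * 30 ^ j * μ) := by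
        ring
      rw [h6]
      have h7 : 30 * (15 / 56 * E (j + 1)) * (2 * 30 ^ j * μ) ≤
          30 * (E j + 7 * (2 * 30 ^ j * μ)) * (2 * 30 ^ j * μ) :=
        mul_le_mul_of_nonneg_right (by linarith) (by positivity)
      refine h7.trans (le_of_eq ?_)
      ring
    have h5 : (225 / 28) * (0.003 * (225 / 28) ^ i) ≤
        (225 / 28) * (E (j + 1) / (2 * 30 ^ (j + 1) * μ) - 196 / 197) :=
      mul_le_mul_of_nonneg_left h1 (by norm_num)
    have h6 : (0.003 : ℝ) * (225 / 28) ^ (i + 1) = (225 / 28) * (0.003 * (225 / 28) ^ i) := by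
      rw [pow_succ]
      ring
    rw [h6]
    linarith

/-- G (file Numeric.lean) -/
theorem numeric (μ k L bK bP bZ N : ℝ) (E A : ℕ → ℝ)
    (hμ : 100 ≤ μ) (hk : 0 ≤ k) (hL : 0 ≤ L) (hbK : 0 ≤ bK) (hbP : 0 ≤ bP) (hbZ : 0 ≤ bZ)
    (hsum : bK + bP + bZ = k)
    (hN : N = ((2 * 10 ^ 10 + 1) * 30 ^ 60 + 27 * ((30 ^ 60 - 1) / 29)) * μ)
    (h1 : k ^ 2 + k + 2 * L ≤ 2 * N)
    (h2 : N ≤ (1 / 2 + 1 / (8000 * ((2 * 10 ^ 10 + 1) * 30 ^ 60 + 27 * ((30 ^ 60 - 1) / 29)))) * k ^ 2)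
    (hP : bP ^ 2 - bP ≤ 2 * (30 ^ 60 * μ + 27 * ((30 ^ 60 - 1) / 29) * μ + L))
    (hZ : bZ ^ 2 ≤ 27 * 60 * (2 * (30 ^ 60 * μ + 27 * ((30 ^ 60 - 1) / 29) * μ + L) + bZ))
    (hE : ∀ j < 60, 15 / 56 * E (j + 1) ≤ E j + 1 / 4 * A j)
    (hA : ∀ j < 60, A j ≤ 2 * (27 * ((30 ^ (j + 1) - 1) / 29) * μ + L))
    (hK : bK ^ 2 ≤ 2 * 10 ^ 10 * E 60)
    (hE0 : ∀ β : ℝ, 0 ≤ β → (∀ x : ℝ, 0 ≤ x → x ^ 2 - x ≤ 2 * (μ + L) → x ≤ β) → E 0 ≤ β * bK) :
    False := by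
  have hμ0 : 0 < μ := by linarith
  -- abstract the big number
  obtain ⟨MM, hMM⟩ : ∃ MM : ℝ, MM = (2 * 10 ^ 10 + 1) * 30 ^ 60 + 27 * ((30 ^ 60 - 1) / 29) :=
    ⟨_, rfl⟩
  rw [← hMM] at hN h2
  have hMMlo : (2 * 10 ^ 10 + 1) * 30 ^ 60 ≤ MM := by
    rw [hMM]
    have : (0 : ℝ) ≤ 27 * ((30 ^ 60 - 1) / 29) := by norm_num
    linarith
  have hMMhi : MM ≤ (2 * 10 ^ 10 + 2) * 30 ^ 60 := by
    rw [hMM]
    norm_num
  have hMM0 : (10 ^ 9 : ℝ) ≤ MM := le_trans (by norm_num) hMMlo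
  have hMMpos : 0 < MM := lt_of_lt_of_le (by norm_num) hMM0
  have hη : 0 < 1 / (8000 * MM) := by positivity
  -- bound for L
  have hLk : L ≤ 1 / (8000 * MM) * k ^ 2 := by
    rw [add_mul] at h2
    linarith only [h1, h2, hk]
  have hk2 : k ^ 2 ≤ 2 * MM * μ := by
    rw [hN] at h1
    linarith
  have hLμ : L ≤ μ / 4000 := by
    have h3 : 1 / (8000 * MM) * k ^ 2 ≤ 1 / (8000 * MM) * (2 * MM * μ) :=
      mul_le_mul_of_nonneg_left hk2 hη.le
    have h4 : 1 / (8000 * MM) * (2 * MM * μ) = μ / 4000 := by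
      field_simp
      norm_num
    linarith
  -- the square root of `m = 30 ^ 60 * μ`
  obtain ⟨P, hPdef⟩ : ∃ P : ℝ, P = 30 ^ 60 := ⟨_, rfl⟩
  have hPbig : (10 ^ 80 : ℝ) ≤ P := by
    rw [hPdef]
    norm_num
  obtain ⟨G, hG⟩ : ∃ G : ℝ, G = 27 * ((30 ^ 60 - 1) / 29) := ⟨_, rfl⟩
  have hGP : G ≤ 27 / 29 * P := by
    rw [hG, hPdef]
    norm_num
  rw [← hG, ← hPdef] at hP hZ
  rw [← hPdef] at hMMlo hMMhi
  have hm0 : 0 < P * μ := by positivity
  obtain ⟨r, hr0, hr⟩ : ∃ r : ℝ, 0 ≤ r ∧ r ^ 2 = P * μ :=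
    ⟨Real.sqrt (P * μ), Real.sqrt_nonneg _, Real.sq_sqrt hm0.le⟩
  have hrbig : (10 ^ 6 : ℝ) ≤ r := by
    by_contra hcon
    push Not at hcon
    have h3 : r ^ 2 ≤ (10 ^ 6) ^ 2 := pow_le_pow_left₀ hr0 hcon.le 2
    have h4 : (10 ^ 80 : ℝ) * 100 ≤ P * μ := mul_le_mul hPbig hμ (by norm_num) (by positivity)
    rw [hr] at h3
    have h5 : (10 ^ 80 : ℝ) * 100 ≤ (10 ^ 6) ^ 2 := h4.trans h3
    norm_num at h5
  have hGμ : P * μ + G * μ + L ≤ 2 * r ^ 2 := by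
    rw [hr]
    have h3 : G * μ ≤ 27 / 29 * P * μ := mul_le_mul_of_nonneg_right hGP hμ0.le
    have h4 : (10 ^ 80 : ℝ) * μ ≤ P * μ := mul_le_mul_of_nonneg_right hPbig hμ0.le
    have h5 : L ≤ 1 / 29 * (P * μ) := by
      have : μ / 4000 ≤ 1 / 29 * ((10 ^ 80 : ℝ) * μ) := by
        rw [← mul_assoc, div_eq_mul_inv, mul_comm μ]
        exact mul_le_mul_of_nonneg_right (by norm_num) hμ0.le
      linarith only [this, h4, hLμ]
    linarith only [h3, h5, hm0]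
  -- bounds for `bP` and `bZ`
  have hbP' : bP ≤ 3 * r := by
    by_contra hcon
    push Not at hcon
    have h3 : bP ^ 2 - bP ≤ 4 * r ^ 2 := by linarith only [hP, hGμ]
    have h4 : (3 * r) * (3 * r - 1) < bP * (bP - 1) :=
      mul_lt_mul'' hcon (by linarith only [hcon]) (by linarith only [hr0]) (by linarith only [hrbig])
    nlinarith only [h3, h4, hrbig, hr0]
  have hbZ' : bZ ≤ 81 * r := by
    by_contra hcon
    push Not at hcon
    have h3 : bZ ^ 2 ≤ 1620 * (4 * r ^ 2 + bZ) := by linarith only [hZ, hGμ]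
    have h4 : (81 * r) * (81 * r - 1620) < bZ * (bZ - 1620) :=
      mul_lt_mul'' hcon (by linarith only [hcon]) (by linarith only [hr0]) (by linarith only [hrbig])
    nlinarith only [h3, h4, hrbig, hr0]
  -- lower bound for `k`
  have hk3 : 3.9999e10 * r ^ 2 ≤ k ^ 2 := by
    have h3 : 1 / (8000 * MM) ≤ 1 / 10 ^ 6 := by
      apply one_div_le_one_div_of_le (by norm_num)
      linarith
    have h4 : N ≤ (1 / 2 + 1 / 10 ^ 6) * k ^ 2 := by
      refine h2.trans (mul_le_mul_of_nonneg_right (by linarith) (sq_nonneg k))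
    have h5 : (2 * 10 ^ 10 + 1) * r ^ 2 ≤ N := by
      rw [hr, hN]
      have := mul_le_mul_of_nonneg_right hMMlo hμ0.le
      linarith
    have h6 := h5.trans h4
    norm_num only at h6 ⊢
    linarith only [h6, sq_nonneg r]
  have hk4 : 1.9999e5 * r ≤ k := by
    by_contra hcon
    push Not at hcon
    have h3 : k ^ 2 ≤ (1.9999e5 * r) ^ 2 := pow_le_pow_left₀ hk hcon.le 2
    have h4 : 0 < r ^ 2 := pow_pos (by linarith only [hrbig]) 2
    rw [mul_pow] at h3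
    have h5 := hk3.trans h3
    norm_num only at h5
    linarith only [h5, h4]
  have hbK' : 0.9995 * k ≤ bK := by
    have : bK = k - bP - bZ := by linarith only [hsum]
    rw [this]
    norm_num only at hk4 ⊢
    linarith only [hk4, hbP', hbZ', hr0]
  have hE60 : 0.998 ≤ E 60 / (2 * P * μ) := by
    rw [le_div_iff₀ (by positivity)]
    have h3 : (0.9995 * k) ^ 2 ≤ bK ^ 2 := pow_le_pow_left₀ (by positivity) hbK' 2
    have h4 : 0.998 * (4 * 10 ^ 10 * r ^ 2) ≤ (0.9995 * k) ^ 2 := by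
      rw [mul_pow]
      norm_num only at hk3 ⊢
      linarith only [sq_nonneg r, hk3]
    have h5 : 2 * P * μ = 2 * r ^ 2 := by
      rw [hr]
      ring
    rw [h5]
    norm_num only at h3 h4 hK ⊢
    linarith only [h3, h4, hK]
  rw [hPdef] at hE60
  have hrec := nu_rec E A μ L hμ0 hLμ hE hA (by linarith) 60 le_rfl
  rw [Nat.sub_self, pow_zero, mul_one] at hrec
  -- the last step
  obtain ⟨q, hq0, hq⟩ : ∃ q : ℝ, 0 ≤ q ∧ q ^ 2 = μ :=
    ⟨Real.sqrt μ, Real.sqrt_nonneg _, Real.sq_sqrt hμ0.le⟩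
  have hq10 : 10 ≤ q := by
    by_contra hcon
    push Not at hcon
    have h3 : q ^ 2 < 10 ^ 2 := pow_lt_pow_left₀ hcon hq0 two_ne_zero
    rw [hq] at h3
    linarith only [h3, hμ]
  have h3 := hE0 (2 * q) (by positivity) (by
    intro x hx hx2
    by_contra hcon
    push Not at hcon
    have h4 : x ^ 2 - x ≤ 3 * q ^ 2 := by
      rw [hq]
      linarith only [hx2, hLμ, hμ0]
    have h5 : (2 * q) * (2 * q - 1) < x * (x - 1) :=
      mul_lt_mul'' hcon (by linarith only [hcon]) (by linarith only [hq10]) (by linarith only [hq10])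
    nlinarith only [h4, h5, hq10])
  have h4 : E 0 ≤ 2 * q * k := h3.trans (mul_le_mul_of_nonneg_left (by linarith only [hsum, hbP, hbZ])
    (by positivity))
  have h5 : (0.003 * (225 / 28) ^ 60 : ℝ) ≤ k / q := by
    have h6 : E 0 / (2 * μ) ≤ k / q := by
      rw [div_le_div_iff₀ (by positivity) (by linarith only [hq10])]
      rw [← hq]
      calc E 0 * q ≤ 2 * q * k * q := mul_le_mul_of_nonneg_right h4 hq0
        _ = k * (2 * q ^ 2) := by ring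
    linarith only [h6, hrec]
  have h6 : ((0.003 * (225 / 28) ^ 60 : ℝ)) ^ 2 ≤ (k / q) ^ 2 :=
    pow_le_pow_left₀ (by positivity) h5 2
  have h7 : (k / q) ^ 2 ≤ 4 * (10 ^ 10 + 1) * 30 ^ 60 := by
    rw [div_pow, hq, div_le_iff₀ hμ0]
    refine hk2.trans ?_
    apply mul_le_mul_of_nonneg_right _ hμ0.le
    rw [← hPdef]
    linarith only [hMMhi]
  exact absurd (h6.trans h7) (not_le.2 nu_final)

end E4
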